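import Pool.Agent.H47.GMC.HART
import Pool.Agent.H58.FCB.LINE

open AlgebraicGeometry CategoryTheory FCB MvPolynomial

set_option linter.unusedSectionVars false
set_option linter.style.haveILetI false

namespace GMC

namespace FINS

variable {X : Scheme.{0}} [IsIntegral X] [IsLocallyNoetherian X]

/-- the order of a unit is zero -/
theorem ord_of_unitAt (p : X) (f : X.functionField) (h : UnitAt p f) : Scheme.ord f p = 0 := by
  by_cases hp : Order.coheight p = 1
  · obtain ⟨s, hs, rfl⟩ := h
    have h0 : algebraMap (X.presheaf.stalk p) X.functionField s ≠ 0 := by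
      intro h
      have h1 := IsFractionRing.injective (X.presheaf.stalk p) X.functionField
        (h.trans (map_zero _).symm)
      exact hs.ne_zero h1
    rw [Scheme.ord_eq_iff hp h0]
    haveI : Ring.KrullDimLE 1 (X.presheaf.stalk p) := krullDimLE_of_coheight_le hp.le
    have e1 : Scheme.ordHom p hp (algebraMap (X.presheaf.stalk p) X.functionField s) = 1 :=
      Ring.ordFrac_of_isUnit hs
    rw [e1]
    rfl
  · exact Scheme.ord_eq_zero_of_coheight_neq_one hp f

theorem ord_div (p : X) (f g : X.functionField) (hf : f ≠ 0) (hg : g ≠ 0) :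
    Scheme.ord (f / g) p = Scheme.ord f p - Scheme.ord g p := by
  rw [div_eq_mul_inv, Scheme.ord_mul hf (inv_ne_zero hg), LINE.ord_inv _ _ hg]
  ring

theorem fin_affine (f : X.functionField) (hf : f ≠ 0) {U : X.Opens} (hU : IsAffineOpen U) :
    {p : PrimeDiv X | p.1 ∈ U ∧ Scheme.ord f p.1 ≠ 0}.Finite := by
  rcases isEmpty_or_nonempty U with hE | hE
  · refine Set.Finite.subset Set.finite_empty ?_
    rintro p ⟨hp, -⟩
    exact hE.elim ⟨p.1, hp⟩
  haveI := functionField_isFractionRing_of_isAffineOpen X U hU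
  haveI : IsNoetherianRing Γ(X, U) := IsLocallyNoetherian.component_noetherian ⟨U, hU⟩
  obtain ⟨a, b, hb, hab⟩ := IsFractionRing.div_surjective (A := Γ(X, U)) f
  have hb0 : b ≠ 0 := nonZeroDivisors.ne_zero hb
  have ha0 : a ≠ 0 := by
    rintro rfl
    apply hf
    rw [← hab, map_zero, zero_div]
  have hinj := IsFractionRing.injective Γ(X, U) X.functionField
  have haK : algebraMap Γ(X, U) X.functionField a ≠ 0 := fun h =>
    ha0 (hinj (h.trans (map_zero _).symm))
  have hbK : algebraMap Γ(X, U) X.functionField b ≠ 0 := fun h =>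
    hb0 (hinj (h.trans (map_zero _).symm))
  classical
  let g : PrimeDiv X → Ideal Γ(X, U) := fun p =>
    if h : p.1 ∈ U then (hU.primeIdealOf ⟨p.1, h⟩).asIdeal else ⊥
  have hg : ∀ (p : PrimeDiv X) (h : p.1 ∈ U), g p = (hU.primeIdealOf ⟨p.1, h⟩).asIdeal :=
    fun p h => dif_pos h
  apply Set.Finite.of_finite_image (f := g)
  · refine Set.Finite.subset
      (Ideal.finite_minimalPrimes_of_isNoetherianRing Γ(X, U) (Ideal.span {a * b})) ?_
    rintro _ ⟨p, ⟨hp, hord⟩, rfl⟩
    rw [hg p hp]
    have hmem : a * b ∈ (hU.primeIdealOf ⟨p.1, hp⟩).asIdeal := by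
      by_contra hn
      apply hord
      have hu : ∀ c : Γ(X, U), c ∉ (hU.primeIdealOf ⟨p.1, hp⟩).asIdeal →
          Scheme.ord (algebraMap Γ(X, U) X.functionField c) p.1 = 0 := by
        intro c hc
        apply ord_of_unitAt
        refine ⟨(X.presheaf.germ U p.1 hp).hom c, ?_, ?_⟩
        · rw [← HART.comap_germ hU p.1 hp, Ideal.mem_comap, IsLocalRing.mem_maximalIdeal,
            mem_nonunits_iff, not_not] at hc
          exact hc
        · exact Scheme.algebraMap_germ_eq_germToFunctionField X hp c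
      rw [← hab, ord_div _ _ _ haK hbK, hu a (fun h => hn (Ideal.mul_mem_right _ _ h)),
        hu b (fun h => hn (Ideal.mul_mem_left _ _ h)), sub_zero]
    have hht : (hU.primeIdealOf ⟨p.1, hp⟩).asIdeal.height = 1 := by
      rw [← HART.comap_germ hU p.1 hp, HART.height_comap hU p.1 hp]
      have h1 := IsLocalRing.maximalIdeal_height_eq_ringKrullDim
        (R := X.presheaf.stalk p.1)
      rw [ringKrullDim_stalk_eq_coheight, p.2] at h1
      exact_mod_cast h1
    refine Ideal.mem_minimalPrimes_of_height_le ?_ ?_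
    · rw [Ideal.span_singleton_le_iff_mem]
      exact hmem
    · rw [hht]
      exact Ideal.one_le_height_span_singleton_of_mem_nonZeroDivisors
        (mem_nonZeroDivisors_of_ne_zero (mul_ne_zero ha0 hb0))
  · rintro p ⟨hp, -⟩ q ⟨hq, -⟩ h
    rw [hg p hp, hg q hq] at h
    have h1 : hU.primeIdealOf ⟨p.1, hp⟩ = hU.primeIdealOf ⟨q.1, hq⟩ := PrimeSpectrum.ext h
    have h2 := hU.fromSpec_primeIdealOf ⟨p.1, hp⟩
    have h3 := hU.fromSpec_primeIdealOf ⟨q.1, hq⟩
    apply Subtype.ext
    rw [h1] at h2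
    exact h2.symm.trans h3

end FINS

theorem fins_thm : S_FINS := by
  intro X _ _ _ f hf
  have h : {p : PrimeDiv X | p.1 ∈ (Set.univ : Set X) ∧ Scheme.ord f p.1 ≠ 0}.Finite := by
    refine isCompact_univ.induction_on
      (p := fun s : Set X => {p : PrimeDiv X | p.1 ∈ s ∧ Scheme.ord f p.1 ≠ 0}.Finite) ?_ ?_ ?_ ?_
    · simp
    · intro s t hst ht
      exact ht.subset fun p hp => ⟨hst hp.1, hp.2⟩
    · intro s t hs ht
      refine (hs.union ht).subset ?_
      rintro p ⟨hp | hp, h2⟩
      · exact Or.inl ⟨hp, h2⟩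
      · exact Or.inr ⟨hp, h2⟩
    · intro x _
      obtain ⟨U, hU, hx, -⟩ := exists_isAffineOpen_mem_and_subset (X := X) (x := x) (U := ⊤)
        trivial
      exact ⟨U, mem_nhdsWithin_of_mem_nhds (U.isOpen.mem_nhds hx), FINS.fin_affine f hf hU⟩
  simpa using h

end GMC
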