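import Pool.Agent.H30.GMC.StT

open AlgebraicGeometry CategoryTheory FCB MvPolynomial

set_option linter.unusedSectionVars false
set_option linter.style.haveILetI false

namespace GMC

namespace HART

variable {X : Scheme.{0}} {U : X.Opens} (hU : IsAffineOpen U)

include hU

theorem comap_germ (x : X) (hx : x ∈ U) :
    (IsLocalRing.maximalIdeal (X.presheaf.stalk x)).comap
      (X.presheaf.germ U x hx).hom = (hU.primeIdealOf ⟨x, hx⟩).asIdeal := by
  letI : Algebra Γ(X, U) (X.presheaf.stalk x) :=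
    TopCat.Presheaf.algebra_section_stalk X.presheaf ⟨x, hx⟩
  haveI : IsLocalization.AtPrime (X.presheaf.stalk x)
    (hU.primeIdealOf ⟨x, hx⟩).asIdeal := hU.isLocalization_stalk ⟨x, hx⟩
  exact IsLocalization.AtPrime.under_maximalIdeal (X.presheaf.stalk x)
    (hU.primeIdealOf ⟨x, hx⟩).asIdeal

theorem surj (x : X) (hx : x ∈ U) (s : X.presheaf.stalk x) :
    ∃ a b : Γ(X, U), IsUnit ((X.presheaf.germ U x hx).hom b) ∧
      s * (X.presheaf.germ U x hx).hom b = (X.presheaf.germ U x hx).hom a := by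
  letI : Algebra Γ(X, U) (X.presheaf.stalk x) :=
    TopCat.Presheaf.algebra_section_stalk X.presheaf ⟨x, hx⟩
  haveI : IsLocalization.AtPrime (X.presheaf.stalk x)
    (hU.primeIdealOf ⟨x, hx⟩).asIdeal := hU.isLocalization_stalk ⟨x, hx⟩
  obtain ⟨⟨a, b⟩, h⟩ := IsLocalization.surj
    (hU.primeIdealOf ⟨x, hx⟩).asIdeal.primeCompl s
  have hb := IsLocalization.map_units (M := (hU.primeIdealOf ⟨x, hx⟩).asIdeal.primeCompl)
    (X.presheaf.stalk x) b
  exact ⟨a, b, hb, h⟩

/-- the height of a prime ideal of a stalk is the height of its preimage -/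
theorem height_comap (x : X) (hx : x ∈ U) (P : Ideal (X.presheaf.stalk x)) :
    (P.comap (X.presheaf.germ U x hx).hom).height = P.height := by
  letI : Algebra Γ(X, U) (X.presheaf.stalk x) :=
    TopCat.Presheaf.algebra_section_stalk X.presheaf ⟨x, hx⟩
  haveI : IsLocalization.AtPrime (X.presheaf.stalk x)
    (hU.primeIdealOf ⟨x, hx⟩).asIdeal := hU.isLocalization_stalk ⟨x, hx⟩
  exact IsLocalization.height_under (hU.primeIdealOf ⟨x, hx⟩).asIdeal.primeCompl P

/-- the point of a prime ideal of a stalk -/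
theorem exists_point (x : X) (hx : x ∈ U) (P : Ideal (X.presheaf.stalk x)) [P.IsPrime] :
    ∃ (p : X) (hp : p ∈ U), p ⤳ x ∧ Order.coheight p = P.height ∧
      ∀ a : Γ(X, U), (X.presheaf.germ U x hx).hom a ∈ P ↔
        ¬ IsUnit ((X.presheaf.germ U p hp).hom a) := by
  let Q : PrimeSpectrum Γ(X, U) :=
    ⟨P.comap (X.presheaf.germ U x hx).hom, Ideal.comap_isPrime _ _⟩
  have hp : hU.fromSpec Q ∈ U := by
    have h := hU.range_fromSpec
    have h1 : hU.fromSpec Q ∈ Set.range hU.fromSpec := ⟨Q, rfl⟩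
    rw [h] at h1
    exact h1
  have h2 : hU.primeIdealOf ⟨hU.fromSpec Q, hp⟩ = Q := by
    apply hU.fromSpec.isOpenEmbedding.injective
    exact hU.fromSpec_primeIdealOf ⟨hU.fromSpec Q, hp⟩
  refine ⟨hU.fromSpec Q, hp, ?_, ?_, ?_⟩
  · have h1 := hU.fromSpec_primeIdealOf ⟨x, hx⟩
    have h3 : Q ⤳ hU.primeIdealOf ⟨x, hx⟩ := by
      rw [← PrimeSpectrum.le_iff_specializes]
      change Q.asIdeal ≤ _
      rw [← comap_germ hU x hx]
      exact Ideal.comap_mono (IsLocalRing.le_maximalIdeal (Ideal.IsPrime.ne_top inferInstance))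
    have h4 := (hU.fromSpec.isOpenEmbedding.isInducing.specializes_iff
        (x := Q) (y := hU.primeIdealOf ⟨x, hx⟩)).2 h3
    rw [h1] at h4
    exact h4
  · have h3 := idealHeight_eq_coheight Γ(X, U) Q
    have h4 := coheight_eq_of_isOpenImmersion (x := Q) hU.fromSpec
    refine h4.trans (h3.symm.trans ?_)
    exact height_comap hU x hx P
  · intro a
    have h5 : (X.presheaf.germ U x hx).hom a ∈ P ↔ a ∈ Q.asIdeal := Iff.rfl
    rw [h5]
    have h6 := comap_germ hU (hU.fromSpec Q) hp
    rw [h2] at h6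
    rw [← h6, Ideal.mem_comap, IsLocalRing.mem_maximalIdeal]
    rfl

end HART

theorem hart_thm (h1 : S_ORDV) (h2 : S_HARA) : S_HART := by
  intro X _ _ hn x f hf hord
  obtain ⟨U, hU, hx, -⟩ := exists_isAffineOpen_mem_and_subset (X := X) (x := x) (U := ⊤) trivial
  haveI : Nonempty U := ⟨⟨x, hx⟩⟩
  haveI := hn x
  obtain ⟨a, b, hb, hab⟩ := IsFractionRing.div_surjective (A := X.presheaf.stalk x) f
  have hb0 : b ≠ 0 := nonZeroDivisors.ne_zero hb
  have hbK : algebraMap _ X.functionField b ≠ 0 := by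
    intro h
    exact hb0 (IsFractionRing.injective (X.presheaf.stalk x) X.functionField
      (h.trans (map_zero _).symm))
  have key : b ∣ a := by
    refine h2 (X.presheaf.stalk x) a b hb0 ?_
    intro P hP hPh
    obtain ⟨p, hp, hpx, hcoh, hmem⟩ := HART.exists_point hU x hx P
    have hcoh1 : Order.coheight p = 1 := hcoh.trans hPh
    have h3 := hord ⟨p, hcoh1⟩ hpx
    obtain ⟨s, hs⟩ := ((h1 X ⟨p, hcoh1⟩ (hn p)).1 f hf).2 h3
    obtain ⟨c, d, hd, hcd⟩ := HART.surj hU p hp s
    refine ⟨(X.presheaf.germ U x hx).hom c, (X.presheaf.germ U x hx).hom d, ?_, ?_⟩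
    · rw [hmem, not_not]
      exact hd
    · apply IsFractionRing.injective (X.presheaf.stalk x) X.functionField
      have h4 := congrArg (algebraMap (X.presheaf.stalk p) X.functionField) hcd
      rw [map_mul, map_mul]
      rw [map_mul, hs] at h4
      have e1 : ∀ z : Γ(X, U), algebraMap (X.presheaf.stalk p) X.functionField
          ((X.presheaf.germ U p hp).hom z) = X.germToFunctionField U z := fun z => by
        rw [← Scheme.algebraMap_germ_eq_germToFunctionField X hp]
      have e2 : ∀ z : Γ(X, U), algebraMap (X.presheaf.stalk x) X.functionField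
          ((X.presheaf.germ U x hx).hom z) = X.germToFunctionField U z := fun z => by
        rw [← Scheme.algebraMap_germ_eq_germToFunctionField X hx]
      rw [e1, e1] at h4
      rw [e2, e2, ← h4, ← hab]
      field_simp
  obtain ⟨c, rfl⟩ := key
  refine ⟨c, ?_⟩
  rw [← hab, map_mul]
  field_simp

end GMC
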