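import Pool.Agent.H47.GMC.FINS

open AlgebraicGeometry CategoryTheory FCB MvPolynomial

set_option linter.unusedSectionVars false
set_option linter.style.haveILetI false

namespace GMC

namespace HCLS

/-! ### Units at a point -/

section unit

variable {T : Scheme.{0}} [IsIntegral T]

theorem unitAt_one (x : T) : UnitAt x (1 : T.functionField) :=
  ⟨1, isUnit_one, map_one _⟩

theorem UnitAt.mul' {x : T} {f g : T.functionField} (hf : UnitAt x f) (hg : UnitAt x g) :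
    UnitAt x (f * g) := by
  obtain ⟨s, hs, rfl⟩ := hf
  obtain ⟨t, ht, rfl⟩ := hg
  exact ⟨s * t, hs.mul ht, map_mul _ _ _⟩

theorem UnitAt.inv' {x : T} {f : T.functionField} (hf : UnitAt x f) : UnitAt x f⁻¹ := by
  obtain ⟨s, hs, rfl⟩ := hf
  obtain ⟨u, rfl⟩ := hs
  refine ⟨(u⁻¹ : (T.presheaf.stalk x)ˣ), Units.isUnit _, ?_⟩
  apply eq_inv_of_mul_eq_one_left
  rw [← map_mul, Units.inv_mul, map_one]

theorem UnitAt.reg {x : T} {f : T.functionField} (hf : UnitAt x f) : RegAt x f := by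
  obtain ⟨s, -, hs⟩ := hf
  exact ⟨s, hs⟩

end unit

/-! ### Orders -/

section ord

variable {X : Scheme.{0}} [IsIntegral X] [IsLocallyNoetherian X]

theorem ord_zpow (x : X) (f : X.functionField) (hf : f ≠ 0) (k : ℤ) :
    Scheme.ord (f ^ k) x = k * Scheme.ord f x := by
  cases k with
  | ofNat n =>
    rw [Int.ofNat_eq_natCast, zpow_natCast, LINE.ord_pow x f hf n]
  | negSucc n =>
    rw [zpow_negSucc, LINE.ord_inv _ _ (pow_ne_zero _ hf), LINE.ord_pow x f hf]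
    rw [Int.negSucc_eq]
    push_cast
    ring

/-- the degree as a homomorphism -/
theorem deg_add (D E : WeilDiv X) : deg (D + E) = deg D + deg E := by
  unfold deg
  exact Finsupp.sum_add_index' (fun _ => rfl) (fun _ _ _ => rfl)

theorem deg_zsmul (k : ℤ) (D : WeilDiv X) : deg (k • D) = k * deg D := by
  unfold deg
  rw [Finsupp.sum_smul_index' (fun _ => rfl), Finsupp.sum, Finsupp.sum, Finset.mul_sum]
  rfl

end ord

/-! ### Pull-backs -/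

section pull

variable {X Y : Scheme.{0}} [IsIntegral X] [IsLocallyNoetherian X] [IsIntegral Y]
    [IsLocallyNoetherian Y] (g : Y ⟶ X)

theorem pull_pow (h1 : S_PULA) {a b} (h : IsPull g a b) (n : ℕ) : IsPull g (a ^ n) (b ^ n) := by
  induction n with
  | zero => simpa using (h1 X Y g).2.2.1
  | succ n ih =>
    rw [pow_succ, pow_succ]
    exact ((h1 X Y g).2.1 _ _ _ _ ih h).1

theorem pull_zpow (h1 : S_PULA) {a b} (h : IsPull g a b) (hb : b ≠ 0) (k : ℤ) :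
    IsPull g (a ^ k) (b ^ k) := by
  cases k with
  | ofNat n =>
    rw [Int.ofNat_eq_natCast, zpow_natCast, zpow_natCast]
    exact pull_pow g h1 h n
  | negSucc n =>
    rw [zpow_negSucc, zpow_negSucc]
    exact (h1 X Y g).2.2.2.2.1 _ _ (pull_pow g h1 h _) (pow_ne_zero _ hb)

theorem pull_mul (h1 : S_PULA) {a b a' b'} (h : IsPull g a b) (h' : IsPull g a' b') :
    IsPull g (a * a') (b * b') := ((h1 X Y g).2.1 _ _ _ _ h h').1

end pull

theorem Qc_mem (q : Fin 4) : Qc q ∈ grd 9 1 := by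
  fin_cases q <;> exact isHomogeneous_X _ _

theorem bf_mem {n e : ℕ} (c : Fin (n + 1) × Fin (e + 1) → ℂ) (i : Fin (n + 1)) :
    bf c i ∈ grd 1 e := by
  unfold bf
  refine Submodule.sum_mem _ fun j _ => ?_
  have h1 : (C (c (i, j)) * X 0 ^ (j : ℕ) * X 1 ^ (e - j) : MvPolynomial (Fin 2) ℂ).IsHomogeneous
      (0 + 1 * (j : ℕ) + 1 * (e - j)) :=
    ((isHomogeneous_C _ _).mul ((isHomogeneous_X ℂ 0).pow _)).mul ((isHomogeneous_X ℂ 1).pow _)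
  have h2 : 0 + 1 * (j : ℕ) + 1 * (e - j) = e := by
    have := j.2
    omega
  rw [h2] at h1
  exact h1

theorem aeval_Qc_mem {e : ℕ} (c : Fin 10 × Fin (e + 1) → ℂ) (q : Fin 4) :
    aeval (bf c) (Qc q) ∈ grd 1 e := by
  fin_cases q
  · change aeval (bf c) (X (eI.symm (some (0, 0))) : MvPolynomial (Fin 10) ℂ) ∈ grd 1 e
    rw [aeval_X]
    exact bf_mem c _
  · change aeval (bf c) (X (eI.symm (some (1, 1))) : MvPolynomial (Fin 10) ℂ) ∈ grd 1 e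
    rw [aeval_X]
    exact bf_mem c _
  · change aeval (bf c) (X (eI.symm (some (2, 2))) : MvPolynomial (Fin 10) ℂ) ∈ grd 1 e
    rw [aeval_X]
    exact bf_mem c _
  · change aeval (bf c) (X (eI.symm none) : MvPolynomial (Fin 10) ℂ) ∈ grd 1 e
    rw [aeval_X]
    exact bf_mem c _

theorem wq_ne {K : Type} [Field K] (ξ : Fin 3 → K) (h : ∀ i, ξ i ≠ 0) (q : Fin 4) :
    wq ξ q ≠ 0 := by
  fin_cases q
  · exact one_ne_zero
  · exact pow_ne_zero 2 (h 0)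
  · exact pow_ne_zero 2 (h 1)
  · exact h 2

end HCLS

open HCLS in
theorem hcls_thm (hPSB : S_PSB) (hPULA : S_PULA) (hRPUL : S_RPUL) (hSUBA : S_SUBA)
    (hSUBB : S_SUBB) (hP1D : S_P1D) (hP1E : S_P1E) (hEQUN : S_EQUN) (hXNOR : S_XNOR)
    (hXIEX : S_XIEX) (hXCOV : S_XCOV) (hXUQI : S_XUQI) (hXUQR : S_XUQR) (hXCAR : S_XCAR) :
    S_HCLS := by
  intro M D dg hD hdg e c g hg hgc D' m (E : WeilDiv (PS 1)) hm hE
  obtain ⟨ξ, hξ⟩ := (hXIEX M).1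
  have hξ0 := ((hXIEX M).2 ξ hξ).1
  obtain ⟨f0, hf0, hE⟩ := hE
  -- the linear equivalence
  set κ : ℤ := dg (m • D') with hκ
  have hLin : LinEquiv ((2 * κ) • (Finsupp.single D 1 : WeilDiv M.X)) ((2 : ℤ) • (m • D')) := by
    rw [hdg.lin, map_zsmul, map_zsmul, hdg.one, ← hκ]
    simp
  obtain ⟨φ, hφ, hLin⟩ := hLin
  -- the generic point
  have hcomp : (g ≫ M.emb) ≫ PSstr 9 = PSstr 1 := by
    rw [Category.assoc]
    exact hg
  have hspec : ∀ p : PS 1, M.P (g (genericPoint (PS 1))) ≤ M.P (g p) := by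
    intro p
    have h1 : genericPoint (PS 1) ⤳ p := genericPoint_specializes p
    have h2 : (g ≫ M.emb) (genericPoint (PS 1)) ⤳ (g ≫ M.emb) p :=
      h1.map (g ≫ M.emb).continuous
    exact ((hPSB 9).2.2.2.2.1 _ _).1 h2
  obtain ⟨q0, hq0⟩ := hXCOV M (g (genericPoint (PS 1)))
  have hsub : ∀ (x : PS 1) (q : Fin 4), Qc q ∈ M.P (g x) ↔ aeval (bf c) (Qc q) ∈ PI x :=
    fun x q => hSUBA 9 e c (g ≫ M.emb) hcomp hgc x 1 (Qc q) (Qc_mem q)
  -- the binary form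
  set A : MvPolynomial (Fin 2) ℂ := aeval (bf c) (Qc q0) with hA
  have hA0 : A ≠ 0 := by
    intro h
    apply hq0
    rw [hsub, ← hA, h]
    exact Ideal.zero_mem _
  obtain ⟨EA, hEAdeg, hEA⟩ := hP1D e A (aeval_Qc_mem c q0) hA0
  -- the function `Φ`
  set Φ : M.X.functionField := φ⁻¹ * (f0 ^ 2)⁻¹ * wq ξ q0 ^ κ with hΦ
  have key : ∀ p : PrimeDiv (PS 1), ∃ (h' f' b : (PS 1).functionField) (h f : M.X.functionField),
      h' ≠ 0 ∧ f' ≠ 0 ∧ b ≠ 0 ∧ IsPull g h h' ∧ IsPull g f f' ∧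
      IsPull g (h ^ 2 * Φ * (f⁻¹) ^ κ) b ∧ Scheme.ord b p.1 = 0 ∧
      E p = Scheme.ord h' p.1 ∧ EA p = Scheme.ord f' p.1 ∧ h ≠ 0 ∧ f ≠ 0 := by
    intro p
    obtain ⟨h, h', hh, hq, hpull, hh', hEp⟩ := hE p
    obtain ⟨qp, hqp⟩ := hXCOV M (g p.1)
    have hqp' : Qc qp ∉ M.P (g (genericPoint (PS 1))) := fun hc => hqp (hspec p.1 hc)
    have hf0' : wq ξ q0 / wq ξ qp ≠ 0 := div_ne_zero (wq_ne ξ hξ0 q0) (wq_ne ξ hξ0 qp)
    obtain ⟨f', hf'1, hf'2⟩ := hRPUL M.X (PS 1) g 9 M.emb (Qc q0) (Qc qp) _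
      (hXUQI M ξ hξ q0 qp) hqp'
    have hf'0 : f' ≠ 0 := by
      rw [← (hPULA M.X (PS 1) g).2.2.2.1 _ _ hf'2,
        (hXUQR M ξ hξ q0 qp (g (genericPoint (PS 1))) hqp').2]
      exact hq0
    have hf'3 := hSUBB 9 e c (g ≫ M.emb) hcomp hgc _ _ _ hf'1
    have hEAp : EA p = Scheme.ord f' p.1 := by
      refine hEA p (aeval (bf c) (Qc qp)) f' ?_ hf'3
      rw [← hsub]
      exact hqp
    -- the unit
    have heq1 : IsEq ((2 * κ) • (Finsupp.single D 1 : WeilDiv M.X)) (g p.1)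
        (h ^ 2 * φ⁻¹ * (f0 ^ 2)⁻¹) := by
      refine ⟨mul_ne_zero (mul_ne_zero (pow_ne_zero 2 hh) (inv_ne_zero hφ))
        (inv_ne_zero (pow_ne_zero 2 hf0)), ?_⟩
      intro q hqp
      have h1 := hLin q
      have h2 := hq q hqp
      rw [Scheme.ord_mul (mul_ne_zero (pow_ne_zero 2 hh) (inv_ne_zero hφ))
        (inv_ne_zero (pow_ne_zero 2 hf0)), Scheme.ord_mul (pow_ne_zero 2 hh) (inv_ne_zero hφ),
        LINE.ord_inv _ _ hφ, LINE.ord_inv _ _ (pow_ne_zero 2 hf0), LINE.ord_pow _ _ hh,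
        LINE.ord_pow _ _ hf0]
      rw [Finsupp.smul_apply (2 : ℤ), smul_eq_mul] at h1
      simp only [Nat.cast_ofNat]
      linarith
    have heq2 := hXCAR M ξ hξ D hD κ qp (g p.1) hqp
    have hunit := hEQUN.1 M.X (hXNOR M) _ _ _ _ heq1 heq2
    have hu : h ^ 2 * φ⁻¹ * (f0 ^ 2)⁻¹ * ((wq ξ qp)⁻¹ ^ κ)⁻¹ =
        h ^ 2 * Φ * ((wq ξ q0 / wq ξ qp)⁻¹) ^ κ := by
      rw [hΦ, inv_div, div_zpow, inv_zpow, inv_inv]
      have h3 : wq ξ q0 ^ κ ≠ 0 := zpow_ne_zero _ (wq_ne ξ hξ0 q0)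
      field_simp
    rw [hu] at hunit
    obtain ⟨b, hb1, hb2, hb3⟩ := (hPULA M.X (PS 1) g).2.2.2.2.2.1 p.1 _ (UnitAt.reg hunit)
    have hb4 := hb3.2 hunit
    have hb0 : b ≠ 0 := by
      obtain ⟨s, hs, rfl⟩ := hb4
      intro h0
      exact hs.ne_zero (IsFractionRing.injective ((PS 1).presheaf.stalk p.1)
        (PS 1).functionField (h0.trans (map_zero _).symm))
    exact ⟨h', f', b, h, wq ξ q0 / wq ξ qp, hh', hf'0, hb0, hpull, hf'2, hb1,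
      FINS.ord_of_unitAt p.1 b hb4, hEp, hEAp, hh, hf0'⟩
  -- the pull-back of `Φ`
  have hex : ∃ p : PrimeDiv (PS 1), True := by
    obtain ⟨EX, hEX, -⟩ := hP1D 1 (X 0) (isHomogeneous_X ℂ 0) (X_ne_zero 0)
    by_contra hno
    have h1 : EX = 0 := by
      ext p
      exact (hno ⟨p, trivial⟩).elim
    rw [h1] at hEX
    simp [deg] at hEX
  obtain ⟨p0, -⟩ := hex
  have hΦ0 : Φ ≠ 0 := by
    rw [hΦ]
    exact mul_ne_zero (mul_ne_zero (inv_ne_zero hφ) (inv_ne_zero (pow_ne_zero 2 hf0)))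
      (zpow_ne_zero _ (wq_ne ξ hξ0 q0))
  obtain ⟨Φ', hΦ'1, hΦ'0⟩ : ∃ Φ', IsPull g Φ Φ' ∧ Φ' ≠ 0 := by
    obtain ⟨h', f', b, h, f, hh', hf', hb, hp1, hp2, hp3, -, -, -, hh, hf⟩ := key p0
    have e1 := (hPULA M.X (PS 1) g).2.2.2.2.1 _ _ (pull_pow g hPULA hp1 2)
      (pow_ne_zero 2 hh')
    have e2 := pull_zpow g hPULA hp2 hf' κ
    refine ⟨b * (h' ^ 2)⁻¹ * f' ^ κ, ?_, mul_ne_zero (mul_ne_zero hb (inv_ne_zero
      (pow_ne_zero 2 hh'))) (zpow_ne_zero _ hf')⟩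
    have e3 := pull_mul g hPULA (pull_mul g hPULA hp3 e1) e2
    have e4 : h ^ 2 * Φ * f⁻¹ ^ κ * (h ^ 2)⁻¹ * f ^ κ = Φ := by
      rw [inv_zpow]
      have h3 : f ^ κ ≠ 0 := zpow_ne_zero _ hf
      field_simp
    rw [e4] at e3
    exact e3
  obtain ⟨EΦ, hEΦ, hEΦdeg⟩ := hP1E Φ' hΦ'0
  -- the comparison
  have hfin : (2 : ℤ) • E + EΦ = κ • EA := by
    ext p
    obtain ⟨h', f', b, h, f, hh', hf', hb, hp1, hp2, hp3, hord, hEp, hEAp, hh, hf⟩ := key p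
    have e1 := pull_pow g hPULA hp1 2
    have e2 := pull_zpow g hPULA ((hPULA M.X (PS 1) g).2.2.2.2.1 _ _ hp2 hf')
      (inv_ne_zero hf') κ
    have e3 := pull_mul g hPULA (pull_mul g hPULA e1 hΦ'1) e2
    have e4 := (hPULA M.X (PS 1) g).1 _ _ _ hp3 e3
    rw [e4, Scheme.ord_mul (mul_ne_zero (pow_ne_zero 2 hh') hΦ'0)
      (zpow_ne_zero _ (inv_ne_zero hf')), Scheme.ord_mul (pow_ne_zero 2 hh') hΦ'0,
      ord_zpow _ _ (inv_ne_zero hf'), LINE.ord_inv _ _ hf', LINE.ord_pow _ _ hh'] at hord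
    rw [Finsupp.add_apply, Finsupp.smul_apply, Finsupp.smul_apply, hEp, hEΦ, hEAp,
      smul_eq_mul, smul_eq_mul]
    push_cast at hord
    linarith
  have hdeg := congrArg deg hfin
  rw [deg_add, deg_zsmul, deg_zsmul, hEΦdeg, hEAdeg, add_zero, hκ, map_nsmul, nsmul_eq_mul] at hdeg
  have hdeg' : (2 : ℝ) * (deg E : ℝ) = (m : ℝ) * (dg D' : ℝ) * (e : ℝ) := by exact_mod_cast hdeg
  have hbet : bet dg ((e : ℝ) / 2) D' = (e : ℝ) / 2 * (dg D' : ℝ) := rfl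
  rw [hbet]
  change (m : ℝ) * ((e : ℝ) / 2 * (dg D' : ℝ)) = ((deg (X := PS 1) E : ℤ) : ℝ)
  linarith

end GMC
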