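import Pool.Agent.H30.GMC.StT
import Pool.Agent.H58.FCB.LINE

open AlgebraicGeometry CategoryTheory FCB MvPolynomial

namespace GMC

namespace LINV

variable {X : Scheme.{0}} [IsIntegral X] [IsLocallyNoetherian X]

lemma sub_numTriv (D E : WeilDiv X) (h : LinEquiv D E) : D - E ∈ numTriv X := by
  obtain ⟨_, _, _, _, _, amp⟩ := FCB.line X
  intro H hH
  obtain ⟨f, hf, h⟩ := h
  constructor
  · refine amp H (H + (D - E)) ⟨f⁻¹, inv_ne_zero hf, fun p => ?_⟩ hH
    rw [LINE.ord_inv _ _ hf, Finsupp.add_apply, Finsupp.sub_apply, h]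
    ring
  · refine amp H (H - (D - E)) ⟨f, hf, fun p => ?_⟩ hH
    rw [Finsupp.sub_apply, Finsupp.sub_apply, h]
    ring

end LINV

theorem linv_thm : S_LINV := by
  intro V γ hγ D E h
  have h1 := hγ (D - E) (LINV.sub_numTriv D E h)
  rw [map_sub, sub_eq_zero] at h1
  exact h1

end GMC
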